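import Pool.Agent.Helper2.HHG1

/-!
Negative answer to Q1 with one element: for the genus two surface with one puncture there is one
mapping class `g` such that for every positive integer `K` the quotient of the mapping class group by
the normal closure of `g ^ K` is not hierarchically hyperbolic.
-/

universe u

open MPb95792

/-- There is one element `g` of the mapping class group of the genus two surface with one puncture
such that for every positive integer `K` the quotient by the normal closure of `g ^ K` is not
hierarchically hyperbolic. -/
theorem Pool.Agent.Results.MP_b95792_al.SingleElementQuotientNotHHG.result :
    ∃ g : MCGS, ∀ K : ℕ, 0 < K →
      ¬ IsHHG.{u, 0} (MCGS ⧸ Subgroup.normalClosure ({g ^ K} : Set MCGS)) :=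
  one_element
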